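import Mathlib

/-! The `k`-server problem with rejection and the work function algorithm. -/

set_option autoImplicit false

namespace Pool.Agent.MP_ea4e37_lc

/-- A request sequence: request `t` is at the point `r t` and has the penalty `p t ≥ 0`;
if `must t` holds it cannot be rejected (infinite penalty). -/
structure Input (M : Type) where
  r : ℕ → M
  p : ℕ → ℝ
  must : ℕ → Prop
  p_nonneg : ∀ t, 0 ≤ p t

/-- A request sequence of the ordinary `k`-server problem: no request can be rejected. -/
def Input.plain {M : Type} (r : ℕ → M) : Input M := ⟨r, fun _ => 0, fun _ => True, fun _ => le_rfl⟩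

variable {M : Type} [MetricSpace M] {k : ℕ}

/-- Distance travelled by the servers of the schedule `C` in the first `n` steps. -/
noncomputable def mov (C : ℕ → Fin k → M) (n : ℕ) : ℝ :=
  ∑ t ∈ Finset.range n, ∑ i, dist (C t i) (C (t + 1) i)

open Classical in
/-- Total penalty of those of the first `n` requests that `C` does not serve. -/
noncomputable def pen (ρ : Input M) (C : ℕ → Fin k → M) (n : ℕ) : ℝ :=
  ∑ t ∈ Finset.range n, if ρ.r t ∈ Set.range (C (t + 1)) then 0 else ρ.p t

/-- `C` starts in `A` and serves each of the first `n` requests that cannot be rejected. -/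
def Feasible (ρ : Input M) (A : Fin k → M) (C : ℕ → Fin k → M) (n : ℕ) : Prop :=
  C 0 = A ∧ ∀ t < n, ρ.must t → ρ.r t ∈ Set.range (C (t + 1))

/-- Offline optimum for the first `n` requests. -/
noncomputable def opt (ρ : Input M) (A : Fin k → M) (n : ℕ) : ℝ :=
  sInf {x | ∃ C, Feasible ρ A C n ∧ x = mov C n + pen ρ C n}

/-- Work function: least cost of handling the first `n` requests and ending in `X`. -/
noncomputable def wf (ρ : Input M) (A : Fin k → M) (n : ℕ) (X : Fin k → M) : ℝ :=
  sInf {x | ∃ (C : ℕ → Fin k → M) (π : Equiv.Perm (Fin k)), Feasible ρ A C n ∧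
    x = mov C n + pen ρ C n + ∑ i, dist (C n i) (X (π i))}

/-- `S` is a run of the work function algorithm from `A` on the first `n` requests, with any
tie-breaking: the options are to move a server `j` to the request or, if allowed, to reject it,
and an option of least value `m` is taken. -/
def IsWFA (ρ : Input M) (A : Fin k → M) (S : ℕ → Fin k → M) (n : ℕ) : Prop :=
  S 0 = A ∧ ∀ t < n, ∃ m : ℝ,
    (∀ j, m ≤ wf ρ A (t + 1) (Function.update (S t) j (ρ.r t)) + dist (S t j) (ρ.r t)) ∧
    (¬ ρ.must t → m ≤ wf ρ A t (S t) + ρ.p t) ∧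
    ((∃ j, S (t + 1) = Function.update (S t) j (ρ.r t) ∧
        m = wf ρ A (t + 1) (Function.update (S t) j (ρ.r t)) + dist (S t j) (ρ.r t)) ∨
      (¬ ρ.must t ∧ S (t + 1) = S t ∧ m = wf ρ A t (S t) + ρ.p t))

/-- Sum of the pairwise distances in a configuration. -/
noncomputable def clique (A : Fin k → M) : ℝ := (∑ i, ∑ j, dist (A i) (A j)) / 2

end Pool.Agent.MP_ea4e37_lc
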